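import Pool.Agent.Z45.OG.Main

/-!
# NP and BPP: how many oracles help to solve the problems in NP in polynomial time

All classes `P`, `NP`, `BPP`, `P/poly` of languages in this file are classes without oracle.
Consider the set `H` of the oracles `A` such that all languages in `NP` are in `P` relative to `A`.
The size of `H` is measured by gauges: `Null f X` says that for every `δ > 0` the set `X`
can be covered by cylinders, given by the first `N` bits of the oracle for various `N`, with
`∑ 2 ^ (f N - N) ≤ δ`. For `f = 0` these are the Lebesgue null sets; the larger the gauge `f` is, the
fewer sets are null.

Bennett and Gill proved that `NP ⊆ BPP` if and only if `H` has measure one. Here it is shown: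

* `NP ⊆ BPP` if and only if `H` is not null for the gauge `c log log N` for some constant `c`. So
  there is a gap: either almost all oracles are in `H`, or `H` is so small that it is null for all
  these gauges.
* On the next scale `H` decides about `P/poly` instead: `NP ⊆ P/poly` if and only if `H` is not null
  for the gauge `(log N) ^ c` for some `c`, and then it is not null for all `c > 0`.

Proof of the first part: if `H` is not null then there is one oracle algorithm which finds, for a
set of oracles that is not null, certificates for all inputs (search reduces to decision, and there
are countably many algorithms). Covering by all cylinders of one length shows that for inputs of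
length `n` it is successful with probability at least `n ^ (-C)` for a random oracle. The random
oracle is simulated by random answers to the new questions.

Proof of the second part: the algorithm is right for all inputs of length at most `n` with
probability at least `2 ^ (-n ^ C)`. If, for some input, a wrong result has probability more than
`1/3` then fixing the answers of one of its right computations increases the conditional probability
of being right everywhere by the factor `3/2`. Hence after fixing polynomially many bits of the
oracle the algorithm is right with probability `2/3` for every input of length `n`. Conversely
advice strings can be written in very few places of the oracle.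

(helper45)
-/

set_option autoImplicit false

open Pool.Agent.NPC Pool.Agent.H620R2.Gauge Pool.Agent.Z45.OG MeasureTheory

theorem Pool.Agent.Helper45.Old.HelpfulOracles.main :
    -- `NP ⊆ BPP` and the gauges `c log log N`
    (((∀ L, InNP L → InBPP L) ↔ ∃ c : ℝ, ¬ Null (fun N => c * Real.logb 2 (Real.logb 2 N))
        {A : Oracle | ∀ L, InNP L → IsP A L}) ∧
      ((∀ L, InNP L → InBPP L) ↔ ∀ᵐ A ∂ranO, ∀ L, InNP L → IsP A L)) ∧
    -- `NP ⊆ P/poly` and the gauges `(log N) ^ c`
    (((∀ L, InNP L → InPpoly L) ↔ ∃ c : ℝ, ¬ Null (fun N => (Real.logb 2 N) ^ c)
        {A : Oracle | ∀ L, InNP L → IsP A L}) ∧
      ((∀ L, InNP L → InPpoly L) ↔ ∀ c : ℝ, 0 < c → ¬ Null (fun N => (Real.logb 2 N) ^ c)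
        {A : Oracle | ∀ L, InNP L → IsP A L})) :=
  ⟨np_bpp_iff, np_ppoly_iff⟩
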